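import Mathlib

namespace Pool.Agent.Lib.US49

open MeasureTheory Finset

/-- Minkowski's theorem on linear forms. -/
theorem mink1 {n : ℕ} (a : Matrix (Fin n) (Fin n) ℝ) (ha : a.det ≠ 0) (s : Fin n → ℝ)
    (hs : ∀ i, 0 < s i) (h : |a.det| < ∏ i, s i) :
    ∃ x : Fin n → ℤ, x ≠ 0 ∧ ∀ i, |a.mulVec (fun l => (x l : ℝ)) i| < s i := by
  classical
  set b := Pi.basisFun ℝ (Fin n) with hb
  have fund := ZSpan.isAddFundamentalDomain' b (volume : Measure (Fin n → ℝ))
  set f : (Fin n → ℝ) →ₗ[ℝ] (Fin n → ℝ) := Matrix.toLin' a with hf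
  have hdet : LinearMap.det f = a.det := LinearMap.det_toLin' a
  set B : Set (Fin n → ℝ) := Set.pi Set.univ fun i => Set.Ioo (-s i) (s i) with hB
  have hcount : Countable (Submodule.span ℤ (Set.range b)).toAddSubgroup :=
    inferInstanceAs (Countable (Submodule.span ℤ (Set.range b)))
  have hsym : ∀ x ∈ f ⁻¹' B, -x ∈ f ⁻¹' B := by
    intro x hx i _
    have := hx i (Set.mem_univ i)
    simp only [map_neg, Pi.neg_apply, Set.mem_Ioo] at this ⊢
    constructor <;> linarith [this.1, this.2]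
  have hconv : Convex ℝ (f ⁻¹' B) :=
    (convex_pi fun i _ => convex_Ioo _ _).linear_preimage f
  have hpos : 0 < |a.det| := abs_pos.2 ha
  have hvol : volume (ZSpan.fundamentalDomain b) * 2 ^ Module.finrank ℝ (Fin n → ℝ) <
      volume (f ⁻¹' B) := by
    rw [Measure.addHaar_preimage_linearMap volume (by rw [hdet]; exact ha), hdet, hB,
      Real.volume_pi_Ioo, ZSpan.volume_fundamentalDomain]
    have h1 : (Matrix.of b).det = 1 := by
      have : Matrix.of b = 1 := by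
        ext i j
        simp [hb, Matrix.one_apply, Pi.single_apply, eq_comm]
      rw [this, Matrix.det_one]
    rw [h1, ← ENNReal.ofReal_prod_of_nonneg (fun i _ => by linarith [hs i]),
      ← ENNReal.ofReal_mul (abs_nonneg _)]
    have h2 : (2 : ENNReal) ^ Module.finrank ℝ (Fin n → ℝ) = ENNReal.ofReal (2 ^ n) := by
      rw [ENNReal.ofReal_pow (by norm_num)]
      simp
    rw [h2, ← ENNReal.ofReal_mul (abs_nonneg _)]
    have h3 : ∏ i, (s i - -s i) = 2 ^ n * ∏ i, s i := by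
      rw [show (2 : ℝ) ^ n = ∏ _i : Fin n, (2 : ℝ) by simp, ← prod_mul_distrib]
      exact prod_congr rfl fun i _ => by ring
    have h4 : (0 : ℝ) < 2 ^ n := by positivity
    have h5 : |(1 : ℝ)| * 2 ^ n < |(a.det)⁻¹| * ∏ i, (s i - -s i) := by
      rw [h3, abs_inv, abs_one, one_mul, mul_left_comm]
      have : 1 < |a.det|⁻¹ * ∏ i, s i := by
        rw [← div_eq_inv_mul, one_lt_div hpos]; exact h
      nlinarith
    exact (ENNReal.ofReal_lt_ofReal_iff (lt_trans (by positivity) h5)).2 h5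
  obtain ⟨x, hx0, hx⟩ :=
    exists_ne_zero_mem_lattice_of_measure_mul_two_pow_lt_measure fund hsym hconv hvol
  have hmem : (x : Fin n → ℝ) ∈ Submodule.span ℤ (Set.range b) := x.2
  rw [b.mem_span_iff_repr_mem ℤ] at hmem
  choose z hz using hmem
  have hxz : (x : Fin n → ℝ) = fun l => (z l : ℝ) := by
    funext l
    have := hz l
    simp only [hb, Pi.basisFun_repr, eq_intCast] at this
    exact this.symm
  refine ⟨z, ?_, fun i => ?_⟩
  · rintro rfl
    apply hx0
    apply Subtype.ext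
    rw [hxz]
    funext l
    simp
  · have := hx i (Set.mem_univ i)
    rw [hxz, hf, Matrix.toLin'_apply] at this
    exact abs_lt.2 this

/-- finitely many integer points in a bounded parallelepiped -/
theorem fin_box {n : ℕ} (a : Matrix (Fin n) (Fin n) ℝ) (ha : a.det ≠ 0) (R : ℝ) :
    {x : Fin n → ℤ | ‖a.mulVec (fun l => (x l : ℝ))‖ ≤ R}.Finite := by
  classical
  set T : ℤ := ⌈∑ i, ∑ j, |a⁻¹ i j| * R⌉ with hT
  refine (Set.Finite.pi' (fun _ : Fin n => Set.finite_Icc (-T) T)).subset ?_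
  intro x hx i
  have hR : 0 ≤ R := le_trans (norm_nonneg _) hx
  have h1 : (fun l => (x l : ℝ)) = a⁻¹.mulVec (a.mulVec fun l => (x l : ℝ)) := by
    rw [Matrix.mulVec_mulVec, Matrix.nonsing_inv_mul a (isUnit_iff_ne_zero.2 ha), Matrix.one_mulVec]
  have h2 : |(x i : ℝ)| ≤ ∑ j, |a⁻¹ i j| * R := by
    rw [show (x i : ℝ) = a⁻¹.mulVec (a.mulVec fun l => (x l : ℝ)) i from congrFun h1 i]
    change |∑ j, a⁻¹ i j * a.mulVec (fun l => (x l : ℝ)) j| ≤ _
    refine (abs_sum_le_sum_abs _ _).trans (sum_le_sum fun j _ => ?_)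
    rw [abs_mul]
    exact mul_le_mul_of_nonneg_left ((norm_le_pi_norm _ j).trans hx) (abs_nonneg _)
  have h3 : ∑ j, |a⁻¹ i j| * R ≤ ∑ i, ∑ j, |a⁻¹ i j| * R :=
    single_le_sum (f := fun i => ∑ j, |a⁻¹ i j| * R)
      (fun i _ => sum_nonneg fun j _ => mul_nonneg (abs_nonneg _) hR) (mem_univ i)
  have h4 : ((|x i| : ℤ) : ℝ) ≤ T := by
    rw [Int.cast_abs]
    exact (h2.trans h3).trans (Int.le_ceil _)
  exact abs_le.1 (by exact_mod_cast h4)

theorem exists_next {n : ℕ} (a : Matrix (Fin n) (Fin n) ℝ) (ha : a.det ≠ 0)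
    (V : Submodule ℚ (Fin n → ℚ)) : ∃ y : Fin n → ℤ, V ≠ ⊤ →
      (fun l => (y l : ℚ)) ∉ V ∧ ∀ x : Fin n → ℤ, (fun l => (x l : ℚ)) ∉ V →
        ‖a.mulVec (fun l => (y l : ℝ))‖ ≤ ‖a.mulVec (fun l => (x l : ℝ))‖ := by
  classical
  by_cases hV : V = ⊤
  · exact ⟨0, fun h => absurd hV h⟩
  have h0 : ∃ x : Fin n → ℤ, (fun l => (x l : ℚ)) ∉ V := by
    by_contra hc
    apply hV
    rw [eq_top_iff, ← (Pi.basisFun ℚ (Fin n)).span_eq, Submodule.span_le]
    rintro _ ⟨i, rfl⟩
    by_contra hi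
    refine hc ⟨Pi.single i 1, fun h => hi ?_⟩
    have : (Pi.basisFun ℚ (Fin n)) i = fun l => (((Pi.single i 1 : Fin n → ℤ) l : ℤ) : ℚ) := by
      funext l
      by_cases hl : l = i
      · subst hl; simp
      · simp [hl]
    rw [this]; exact h
  obtain ⟨x0, hx0⟩ := h0
  set N : (Fin n → ℤ) → ℝ := fun x => ‖a.mulVec (fun l => (x l : ℝ))‖ with hN
  have hfin : {x : Fin n → ℤ | (fun l => (x l : ℚ)) ∉ V ∧ N x ≤ N x0}.Finite :=
    (fin_box a ha (N x0)).subset fun x hx => hx.2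
  obtain ⟨y, hy, hmin⟩ := Set.exists_min_image _ N hfin ⟨x0, hx0, le_rfl⟩
  refine ⟨y, fun _ => ⟨hy.1, fun x hx => ?_⟩⟩
  by_cases h : N x ≤ N x0
  · exact hmin x ⟨hx, h⟩
  · exact hy.2.trans (not_le.1 h).le

/-- Successive minima of the unit cube for the lattice `a ℤ^n`. -/
theorem minima {n : ℕ} (a : Matrix (Fin n) (Fin n) ℝ) (ha : a.det ≠ 0) :
    ∃ y : Fin n → Fin n → ℤ, (Matrix.of y).det ≠ 0 ∧
      (∀ j, 0 < ‖a.mulVec (fun l => (y j l : ℝ))‖) ∧
      Monotone (fun j => ‖a.mulVec (fun l => (y j l : ℝ))‖) ∧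
      (∀ (x : Fin n → ℤ) (k : Fin n),
        ‖a.mulVec (fun l => (x l : ℝ))‖ < ‖a.mulVec (fun l => (y k l : ℝ))‖ →
        ∃ t : Fin n → ℚ, (∀ j, k ≤ j → t j = 0) ∧ ∀ l, (x l : ℚ) = ∑ j, t j * y j l) ∧
      (∀ x : Fin n → ℤ, x ≠ 0 → ∃ (k : Fin n) (t : Fin n → ℚ), (∀ j, k < j → t j = 0) ∧
        (∀ l, (x l : ℚ) = ∑ j, t j * y j l) ∧
        ‖a.mulVec (fun l => (y k l : ℝ))‖ ≤ ‖a.mulVec (fun l => (x l : ℝ))‖) := by
  classical
  choose nx hnx using exists_next a ha
  obtain ⟨V, V0, VS⟩ : ∃ V : ℕ → Submodule ℚ (Fin n → ℚ), V 0 = ⊥ ∧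
      ∀ k, V (k + 1) = V k ⊔ Submodule.span ℚ {fun l => (nx (V k) l : ℚ)} :=
    ⟨fun k => Nat.rec ⊥ (fun _ W => W ⊔ Submodule.span ℚ {fun l => (nx W l : ℚ)}) k, rfl,
      fun _ => rfl⟩
  have hmono : Monotone V := monotone_nat_of_le_succ fun k => by rw [VS]; exact le_sup_left
  have hrk : ∀ k : ℕ, Module.finrank ℚ ↥(V k) ≤ k := by
    intro k
    induction k with
    | zero => rw [V0]; simp
    | succ k ih =>
      rw [VS]
      refine (Submodule.finrank_add_le_finrank_add_finrank _ _).trans (add_le_add ih ?_)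
      simpa using finrank_span_le_card (R := ℚ) ({fun l => (nx (V k) l : ℚ)} : Set (Fin n → ℚ))
  have hne : ∀ k, k < n → V k ≠ ⊤ := by
    intro k hk h
    have := hrk k
    rw [h, finrank_top, Module.finrank_fin_fun] at this
    omega
  have hrk2 : ∀ k : ℕ, k ≤ n → k ≤ Module.finrank ℚ ↥(V k) := by
    intro k
    induction k with
    | zero => intro _; exact Nat.zero_le _
    | succ k ih =>
      intro hk
      have hlt : V k < V (k + 1) := by
        refine lt_of_le_of_ne (hmono (Nat.le_succ k)) fun h => (hnx (V k) (hne k hk)).1 ?_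
        have hm : (fun l => (nx (V k) l : ℚ)) ∈ V (k + 1) := by
          rw [VS]; exact Submodule.mem_sup_right (Submodule.mem_span_singleton_self _)
        rwa [← h] at hm
      exact lt_of_le_of_lt (ih (by omega)) (Submodule.finrank_lt_finrank_of_lt hlt)
  have htop : V n = ⊤ :=
    Submodule.eq_top_of_finrank_eq (by
      rw [Module.finrank_fin_fun]; exact le_antisymm (hrk n) (hrk2 n le_rfl))
  set y : Fin n → Fin n → ℤ := fun j => nx (V j) with hy
  have hrep : ∀ k, k ≤ n → ∀ x ∈ V k, ∃ t : Fin n → ℚ, (∀ j : Fin n, k ≤ j → t j = 0) ∧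
      ∀ l, x l = ∑ j, t j * y j l := by
    intro k
    induction k with
    | zero =>
      intro _ x hx
      rw [V0, Submodule.mem_bot] at hx
      exact ⟨0, fun _ _ => rfl, fun l => by simp [hx]⟩
    | succ k ih =>
      intro hk x hx
      rw [VS, Submodule.mem_sup] at hx
      obtain ⟨u, hu, w, hw, rfl⟩ := hx
      obtain ⟨c, rfl⟩ := Submodule.mem_span_singleton.1 hw
      obtain ⟨t, ht, htu⟩ := ih (by omega) u hu
      refine ⟨t + Pi.single (⟨k, hk⟩ : Fin n) c, fun j hj => ?_, fun l => ?_⟩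
      · have : j ≠ ⟨k, hk⟩ := fun h => by rw [h] at hj; simp at hj
        simp [this, ht j (by omega)]
      · simp only [Pi.add_apply, add_mul, sum_add_distrib, htu l, Pi.smul_apply, smul_eq_mul]
        congr 1
        rw [sum_eq_single (⟨k, hk⟩ : Fin n)]
        · simp [hy]
        · intro j _ hj; simp [hj]
        · intro h; exact absurd (mem_univ _) h
  have hsp : ∀ j : Fin n, _ := fun j => hnx (V j) (hne j j.2)
  refine ⟨y, ?_, fun j => ?_, fun j k hjk => ?_, fun x k hx => ?_, fun x hx => ?_⟩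
  · have hsurj : ∀ i : Fin n, ∃ t : Fin n → ℚ, ∀ l, (1 : Matrix (Fin n) (Fin n) ℚ) i l =
        ∑ j, t j * y j l := fun i => by
      obtain ⟨t, _, ht⟩ := hrep n le_rfl ((1 : Matrix (Fin n) (Fin n) ℚ) i) (by rw [htop]; trivial)
      exact ⟨t, ht⟩
    choose t ht using hsurj
    have h1 : (Matrix.of t) * (Matrix.of y).map (Int.castRingHom ℚ) = 1 := by
      ext i l
      rw [ht i l, Matrix.mul_apply]; rfl
    intro h0
    have h2 := congrArg Matrix.det h1
    rw [Matrix.det_mul, ← RingHom.mapMatrix_apply, ← RingHom.map_det, h0] at h2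
    simp at h2
  · rw [norm_pos_iff]
    intro h0
    have h1 := Matrix.eq_zero_of_mulVec_eq_zero ha h0
    apply (hsp j).1
    have : (fun l => (nx (V j) l : ℚ)) = 0 := by
      funext l
      have h2 : ((y j l : ℤ) : ℝ) = 0 := congrFun h1 l
      have h3 : y j l = 0 := by exact_mod_cast h2
      simp only [hy] at h3
      simp [h3]
    rw [this]; exact Submodule.zero_mem _
  · exact (hsp j).2 _ fun h => (hsp k).1 (hmono hjk h)
  · have : (fun l => (x l : ℚ)) ∈ V k := by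
      by_contra h
      exact absurd hx (not_lt.2 ((hsp k).2 x h))
    exact hrep k k.2.le _ this
  · have hex : ∃ k, (fun l => (x l : ℚ)) ∈ V k := ⟨n, by rw [htop]; trivial⟩
    have h1 := Nat.find_spec hex
    have h2 : Nat.find hex ≤ n := Nat.find_min' hex (by rw [htop]; trivial)
    have h3 : Nat.find hex ≠ 0 := by
      intro h
      rw [h, V0, Submodule.mem_bot] at h1
      apply hx
      funext l
      have h5 : ((x l : ℤ) : ℚ) = 0 := congrFun h1 l
      exact_mod_cast h5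
    obtain ⟨k, hk⟩ := Nat.exists_eq_succ_of_ne_zero h3
    have h4 := Nat.find_min hex (m := k) (by omega)
    obtain ⟨t, ht, htx⟩ := hrep _ h2 _ h1
    refine ⟨⟨k, by omega⟩, t, fun j hj => ht j ?_, htx, (hsp ⟨k, by omega⟩).2 x h4⟩
    rw [hk]; exact hj

end Pool.Agent.Lib.US49
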